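import Pool.Agent.helper47.MSW.SpecA

/-! Row msw:GEM (MP_a87880_co): binomial moments of the geometric weights -/

set_option autoImplicit false

namespace Pool.Agent.MSW

open Equiv Finset Function MeasureTheory Pool.Agent.helper48.PP
open Pool.Agent.DSW (Pr Has GP wt)
open scoped ENNReal Classical

theorem GEM_wt (H j : ℕ) :
    wt H j = ENNReal.ofReal (1 / ((H : ℝ) + 1)) * ENNReal.ofReal ((H : ℝ) / ((H : ℝ) + 1)) ^ j := by
  have h1 : wt H j = ENNReal.ofReal ((H : ℝ) ^ j / ((H : ℝ) + 1) ^ (j + 1)) := by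
    rw [ENNReal.ofReal_div_of_pos (by positivity), ENNReal.ofReal_pow (by positivity),
      ENNReal.ofReal_pow (by positivity), ENNReal.ofReal_natCast,
      ENNReal.ofReal_add (by positivity) (by norm_num), ENNReal.ofReal_natCast, ENNReal.ofReal_one]
    rfl
  rw [h1, ← ENNReal.ofReal_pow (by positivity), ← ENNReal.ofReal_mul (by positivity)]
  congr 1
  rw [div_pow, pow_succ]
  field_simp

/-- the generating function of the binomial coefficients -/
theorem GEM_gen (x : ℝ) (r : ℕ) (h0 : 0 ≤ x) (h1 : x < 1) :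
    ∑' j : ℕ, ENNReal.ofReal x ^ j * ((j.choose r : ℕ) : ℝ≥0∞) = ENNReal.ofReal (x ^ r / (1 - x) ^ (r + 1)) := by
  have hx : ‖x‖ < 1 := by rwa [Real.norm_of_nonneg h0]
  rw [← (ENNReal.summable (f := fun n => ENNReal.ofReal x ^ (n + r) * (((n + r).choose r : ℕ) : ℝ≥0∞))).sum_add_tsum_nat_add']
  have h2 : ∑ i ∈ Finset.range r, ENNReal.ofReal x ^ i * ((i.choose r : ℕ) : ℝ≥0∞) = 0 := by
    refine Finset.sum_eq_zero fun i hi => ?_
    rw [Nat.choose_eq_zero_of_lt (Finset.mem_range.1 hi), Nat.cast_zero, mul_zero]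
  rw [h2, zero_add]
  have h3 := (summable_choose_mul_geometric_of_norm_lt_one r hx).mul_left (x ^ r)
  have h4 := tsum_choose_mul_geometric_of_norm_lt_one r hx
  have h5 : x ^ r / (1 - x) ^ (r + 1) = ∑' n : ℕ, x ^ r * (((n + r).choose r : ℕ) * x ^ n) := by
    rw [tsum_mul_left, h4]
    ring
  rw [h5, ENNReal.ofReal_tsum_of_nonneg (fun n => by positivity) h3]
  refine tsum_congr fun n => ?_
  rw [← ENNReal.ofReal_pow h0, ← ENNReal.ofReal_natCast, ← ENNReal.ofReal_mul (by positivity)]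
  congr 1
  rw [pow_add]
  ring

theorem GEM : GEM_stmt := by
  intro H r hH
  have hHR : (1 : ℝ) ≤ H := by exact_mod_cast hH
  have hH1 : (0 : ℝ) < (H : ℝ) + 1 := by linarith
  have hx1 : (H : ℝ) / ((H : ℝ) + 1) < 1 := by
    rw [div_lt_one hH1]
    linarith
  constructor
  · have h1 : ∀ j : ℕ, wt H j * ((j.choose r : ℕ) : ℝ≥0∞) = ENNReal.ofReal (1 / ((H : ℝ) + 1)) *
        (ENNReal.ofReal ((H : ℝ) / ((H : ℝ) + 1)) ^ j * ((j.choose r : ℕ) : ℝ≥0∞)) := by
      intro j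
      rw [GEM_wt, mul_assoc]
    rw [tsum_congr h1, ENNReal.tsum_mul_left, GEM_gen _ r (by positivity) hx1, ← ENNReal.ofReal_mul (by positivity)]
    have h2 : 1 / ((H : ℝ) + 1) * (((H : ℝ) / ((H : ℝ) + 1)) ^ r / (1 - (H : ℝ) / ((H : ℝ) + 1)) ^ (r + 1)) =
        (H : ℝ) ^ r := by
      have h3 : 1 - (H : ℝ) / ((H : ℝ) + 1) = 1 / ((H : ℝ) + 1) := by
        field_simp
        ring
      rw [h3, div_pow, div_pow, one_pow, pow_succ]
      field_simp
    rw [h2, ENNReal.ofReal_pow (by positivity), ENNReal.ofReal_natCast]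
  · obtain ⟨x, hx⟩ : ∃ x, x = Real.sqrt ((H : ℝ) / (H + 1)) := ⟨_, rfl⟩
    have hx0 : 0 ≤ x := by
      rw [hx]
      exact Real.sqrt_nonneg _
    have hxsq : x ^ 2 = (H : ℝ) / ((H : ℝ) + 1) := by
      rw [hx, Real.sq_sqrt (by positivity)]
    have hx1' : x < 1 := by
      rw [← hxsq] at hx1
      nlinarith
    have hx2 : 1 / (2 * ((H : ℝ) + 1)) ≤ 1 - x := by
      have h5 : 1 - x ^ 2 = 1 / ((H : ℝ) + 1) := by
        rw [hxsq]
        field_simp
        ring
      have h6 : 1 - x ^ 2 ≤ 2 * (1 - x) := by nlinarith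
      have h7 : 1 / (2 * ((H : ℝ) + 1)) = 1 / ((H : ℝ) + 1) / 2 := by
        field_simp
      rw [h7, ← h5]
      linarith
    have hta : ∀ j : ℕ, ta H ^ j * ((j.choose r : ℕ) : ℝ≥0∞) = ENNReal.ofReal x ^ j * ((j.choose r : ℕ) : ℝ≥0∞) := by
      intro j
      unfold ta
      rw [← hx]
    rw [tsum_congr hta, GEM_gen x r hx0 hx1']
    have h8 : (2 * ((H : ℝ≥0∞) + 1)) ^ (r + 1) = ENNReal.ofReal ((2 * ((H : ℝ) + 1)) ^ (r + 1)) := by
      rw [ENNReal.ofReal_pow (by positivity), ENNReal.ofReal_mul (by norm_num),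
        ENNReal.ofReal_add (by positivity) (by norm_num), ENNReal.ofReal_natCast, ENNReal.ofReal_one]
      norm_num
    rw [h8]
    apply ENNReal.ofReal_le_ofReal
    have h9 : 0 < 1 - x := by linarith
    have h10 : x ^ r ≤ 1 := pow_le_one₀ hx0 hx1'.le
    have h11 : 1 / (1 - x) ≤ 2 * ((H : ℝ) + 1) := by
      rw [div_le_iff₀ h9]
      have := mul_le_mul_of_nonneg_left hx2 (show 0 ≤ 2 * ((H : ℝ) + 1) by positivity)
      have h12 : 2 * ((H : ℝ) + 1) * (1 / (2 * ((H : ℝ) + 1))) = 1 := by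
        field_simp
      linarith
    calc x ^ r / (1 - x) ^ (r + 1) ≤ 1 / (1 - x) ^ (r + 1) := by
          apply div_le_div_of_nonneg_right h10
          positivity
      _ = (1 / (1 - x)) ^ (r + 1) := by rw [div_pow, one_pow]
      _ ≤ _ := pow_le_pow_left₀ (by positivity) h11 _

end Pool.Agent.MSW
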