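import Pool.Agent.helper47.MSW.SpecA

/-! Row msw:GEW (MP_a87880_co): the geometric weights -/

set_option autoImplicit false

namespace Pool.Agent.MSW

open Equiv Finset Function MeasureTheory Pool.Agent.helper48.PP
open Pool.Agent.DSW (Pr Has GP wt)
open scoped ENNReal Classical

theorem GEW_wt (H j : ℕ) :
    wt H j = ENNReal.ofReal (1 / ((H : ℝ) + 1)) * ENNReal.ofReal ((H : ℝ) / ((H : ℝ) + 1)) ^ j := by
  have h1 : wt H j = ENNReal.ofReal ((H : ℝ) ^ j / ((H : ℝ) + 1) ^ (j + 1)) := by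
    rw [ENNReal.ofReal_div_of_pos (by positivity), ENNReal.ofReal_pow (by positivity),
      ENNReal.ofReal_pow (by positivity), ENNReal.ofReal_natCast,
      ENNReal.ofReal_add (by positivity) (by norm_num), ENNReal.ofReal_natCast, ENNReal.ofReal_one]
    rfl
  rw [h1, ← ENNReal.ofReal_pow (by positivity), ← ENNReal.ofReal_mul (by positivity)]
  congr 1
  rw [div_pow, pow_succ]
  field_simp

theorem GEW_ta2 (H : ℕ) : ta H ^ 2 = ENNReal.ofReal ((H : ℝ) / ((H : ℝ) + 1)) := by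
  unfold ta
  rw [← ENNReal.ofReal_pow (Real.sqrt_nonneg _), Real.sq_sqrt (by positivity)]

theorem GEW_cast (H : ℕ) : (H : ℝ≥0∞) + 1 = ENNReal.ofReal ((H : ℝ) + 1) := by
  rw [ENNReal.ofReal_add (by positivity) (by norm_num), ENNReal.ofReal_natCast, ENNReal.ofReal_one]

theorem GEW_g (H : ℕ) : ENNReal.ofReal (1 / ((H : ℝ) + 1)) * ((H : ℝ≥0∞) + 1) = 1 := by
  rw [GEW_cast, ← ENNReal.ofReal_mul (by positivity)]
  have h : 1 / ((H : ℝ) + 1) * ((H : ℝ) + 1) = 1 := by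
    field_simp
  rw [h, ENNReal.ofReal_one]

/-- `1/3 ≤ (H/(H+1))^H ≤ 1/2` -/
theorem GEW_bd (H : ℕ) (hH : 1 ≤ H) :
    1 / 3 ≤ ((H : ℝ) / ((H : ℝ) + 1)) ^ H ∧ ((H : ℝ) / ((H : ℝ) + 1)) ^ H ≤ 1 / 2 := by
  have hHR : (1 : ℝ) ≤ H := by exact_mod_cast hH
  have hH0 : (0 : ℝ) < H := by linarith
  have h1 : (H : ℝ) / ((H : ℝ) + 1) = (1 + 1 / (H : ℝ))⁻¹ := by
    rw [eq_comm, inv_eq_one_div, one_add_div hH0.ne', one_div_div]
  have h2 : (2 : ℝ) ≤ (1 + 1 / (H : ℝ)) ^ H := by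
    have h3 := one_add_mul_le_pow (a := 1 / (H : ℝ)) (by
      have : 0 ≤ 1 / (H : ℝ) := by positivity
      linarith) H
    have h4 : (H : ℝ) * (1 / (H : ℝ)) = 1 := by
      field_simp
    linarith
  have h3 : (1 + 1 / (H : ℝ)) ^ H ≤ 3 := by
    have h4 : 1 + 1 / (H : ℝ) ≤ Real.exp (1 / (H : ℝ)) := by
      have := Real.add_one_le_exp (1 / (H : ℝ))
      linarith
    have h5 : (1 + 1 / (H : ℝ)) ^ H ≤ Real.exp (1 / (H : ℝ)) ^ H := pow_le_pow_left₀ (by positivity) h4 _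
    rw [← Real.exp_nat_mul] at h5
    have h6 : (H : ℝ) * (1 / (H : ℝ)) = 1 := by
      field_simp
    rw [h6] at h5
    have h7 := Real.exp_one_lt_d9
    linarith
  rw [h1, inv_pow]
  constructor
  · rw [one_div (3 : ℝ)]
    exact inv_anti₀ (by linarith) h3
  · rw [one_div (2 : ℝ)]
    exact inv_anti₀ (by norm_num) h2

theorem GEW (hGEM : GEM_stmt) : GEW_stmt := by
  intro H hH
  have hHR : (1 : ℝ) ≤ H := by exact_mod_cast hH
  have hH0 : (0 : ℝ) < H := by linarith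
  have hH1 : (0 : ℝ) < (H : ℝ) + 1 := by linarith
  have hq1 : (H : ℝ) / ((H : ℝ) + 1) ≤ 1 := by
    rw [div_le_one hH1]
    linarith
  have hq0 : 0 < (H : ℝ) / ((H : ℝ) + 1) := by positivity
  obtain ⟨hb1, hb2⟩ := GEW_bd H hH
  have hqH : ENNReal.ofReal ((H : ℝ) / ((H : ℝ) + 1)) ^ H = ENNReal.ofReal (((H : ℝ) / ((H : ℝ) + 1)) ^ H) := by
    rw [ENNReal.ofReal_pow hq0.le]
  refine ⟨⟨?_, ?_⟩, ?_, ⟨?_, ?_⟩, ?_, ?_, ?_⟩
  · unfold ta
    rw [ENNReal.ofReal_le_one]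
    exact Real.sqrt_le_one.2 hq1
  · unfold ta
    rw [← pos_iff_ne_zero, ENNReal.ofReal_pos]
    exact Real.sqrt_pos.2 hq0
  · intro z
    rw [GEW_wt, GEW_wt, pow_mul, GEW_ta2]
    unfold nm
    rw [pow_add]
    have h1 := GEW_g H
    calc ENNReal.ofReal (1 / ((H : ℝ) + 1)) * ENNReal.ofReal ((H : ℝ) / ((H : ℝ) + 1)) ^ z.1 *
          (ENNReal.ofReal (1 / ((H : ℝ) + 1)) * ENNReal.ofReal ((H : ℝ) / ((H : ℝ) + 1)) ^ z.2) *
          ((H : ℝ≥0∞) + 1) ^ 2
        = (ENNReal.ofReal (1 / ((H : ℝ) + 1)) * ((H : ℝ≥0∞) + 1)) ^ 2 *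
          (ENNReal.ofReal ((H : ℝ) / ((H : ℝ) + 1)) ^ z.1 *
            ENNReal.ofReal ((H : ℝ) / ((H : ℝ) + 1)) ^ z.2) := by ring
      _ = _ := by rw [h1, one_pow, one_mul]
  · rw [pow_mul, GEW_ta2, hqH]
    exact ENNReal.ofReal_le_ofReal hb1
  · rw [pow_mul, GEW_ta2, hqH]
    exact ENNReal.ofReal_le_ofReal hb2
  · intro m hm
    have hmR : (1 : ℝ) ≤ m := by exact_mod_cast hm
    obtain ⟨u, hu⟩ : ∃ u : ℝ, u = 1 / (2 * m * ((H : ℝ) + 1)) := ⟨_, rfl⟩
    have hu0 : 0 < u := by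
      rw [hu]
      positivity
    have hu1 : u ≤ 1 := by
      rw [hu, div_le_one (by positivity)]
      nlinarith
    have hup : up m H = ENNReal.ofReal (1 - u) := by
      unfold up
      rw [hu]
    refine ⟨?_, ?_, ?_⟩
    · rw [hup, ← ENNReal.ofReal_pow (by linarith)]
      unfold ta
      apply ENNReal.ofReal_le_ofReal
      have h1 : 1 - (m : ℝ) * u ≤ (1 - u) ^ m := by
        have h2 := one_add_mul_le_pow (a := -u) (by linarith) m
        have h3 : 1 + (m : ℝ) * -u = 1 - m * u := by ring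
        have h4 : 1 + -u = 1 - u := by ring
        rw [h3, h4] at h2
        exact h2
      refine le_trans ?_ h1
      have h5 : (m : ℝ) * u = 1 / (2 * ((H : ℝ) + 1)) := by
        rw [hu]
        field_simp
      rw [h5, Real.sqrt_le_iff]
      obtain ⟨v, hv⟩ : ∃ v : ℝ, v = 1 / (2 * ((H : ℝ) + 1)) := ⟨_, rfl⟩
      rw [← hv]
      have hv1 : v ≤ 1 := by
        rw [hv, div_le_one (by positivity)]
        linarith
      have h6 : (H : ℝ) / (H + 1) = 1 - 2 * v := by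
        rw [hv]
        field_simp
        ring
      refine ⟨by linarith, ?_⟩
      rw [h6]
      nlinarith [sq_nonneg v]
    · rw [hup, ENNReal.ofReal_le_one]
      linarith
    · rw [ENNReal.tsum_geometric, hup]
      have h1 : (1 : ℝ≥0∞) - ENNReal.ofReal (1 - u) = ENNReal.ofReal u := by
        rw [← ENNReal.ofReal_one, ← ENNReal.ofReal_sub _ (by linarith)]
        congr 1
        ring
      rw [h1, ← ENNReal.ofReal_inv_of_pos hu0, hu, one_div, inv_inv, GEW_cast,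
        ENNReal.ofReal_mul (by positivity), ENNReal.ofReal_mul (by norm_num), ENNReal.ofReal_natCast]
      norm_num
  · have h1 : ∑' j : ℕ, wt H j = 1 := by
      have h2 := (hGEM H 0 hH).1
      simpa using h2
    have h3 := ENNReal.tsum_prod (f := fun a b : ℕ => wt H a * wt H b)
    calc ∑' w : Pt, wt H w.1 * wt H w.2 = ∑' (a : ℕ) (b : ℕ), wt H a * wt H b := h3
      _ = ∑' a : ℕ, wt H a * 1 := by
          refine tsum_congr fun a => ?_
          rw [ENNReal.tsum_mul_left, h1]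
      _ = 1 := by simp only [mul_one, h1]
  · have hw : ∀ j : ℕ, j < 2 * H → ENNReal.ofReal (1 / (9 * ((H : ℝ) + 1))) ≤ wt H j := by
      intro j hj
      rw [GEW_wt, ← ENNReal.ofReal_pow hq0.le, ← ENNReal.ofReal_mul (by positivity)]
      apply ENNReal.ofReal_le_ofReal
      have h1 : ((H : ℝ) / ((H : ℝ) + 1)) ^ (2 * H) ≤ ((H : ℝ) / ((H : ℝ) + 1)) ^ j :=
        pow_le_pow_of_le_one hq0.le hq1 hj.le
      have h2 : (1 : ℝ) / 9 ≤ ((H : ℝ) / ((H : ℝ) + 1)) ^ (2 * H) := by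
        rw [mul_comm, pow_mul]
        nlinarith
      have h3 : 1 / (9 * ((H : ℝ) + 1)) = 1 / ((H : ℝ) + 1) * (1 / 9) := by
        field_simp
      rw [h3]
      exact mul_le_mul_of_nonneg_left (h2.trans h1) (by positivity)
    have hsub := ENNReal.sum_le_tsum (f := fun w : Pt => wt H w.1 * wt H w.2 * (if Jb H w then 1 else 0))
      (Finset.Ico H (2 * H) ×ˢ Finset.Ico H (2 * H))
    refine le_trans ?_ hsub
    have h1 : ∑ w ∈ (Finset.Ico H (2 * H) ×ˢ Finset.Ico H (2 * H)),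
        ENNReal.ofReal (1 / (9 * ((H : ℝ) + 1))) * ENNReal.ofReal (1 / (9 * ((H : ℝ) + 1))) ≤
        ∑ w ∈ (Finset.Ico H (2 * H) ×ˢ Finset.Ico H (2 * H)),
          wt H w.1 * wt H w.2 * (if Jb H w then 1 else 0) := by
      refine Finset.sum_le_sum fun w hw' => ?_
      rw [Finset.mem_product, Finset.mem_Ico, Finset.mem_Ico] at hw'
      rw [if_pos (show Jb H w from hw'), mul_one]
      exact mul_le_mul' (hw _ hw'.1.2) (hw _ hw'.2.2)
    refine le_trans ?_ h1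
    rw [Finset.sum_const, Finset.card_product, Nat.card_Ico, nsmul_eq_mul,
      ← ENNReal.ofReal_mul (by positivity), show 2 * H - H = H by omega, ← ENNReal.ofReal_natCast,
      ← ENNReal.ofReal_mul (by positivity)]
    apply ENNReal.ofReal_le_ofReal
    rw [Nat.cast_mul]
    have h4 : (1 : ℝ) / 2 ≤ (H : ℝ) / ((H : ℝ) + 1) := by
      rw [div_le_div_iff₀ (by norm_num) hH1]
      linarith
    have h5 : (H : ℝ) * (H : ℝ) * (1 / (9 * ((H : ℝ) + 1)) * (1 / (9 * ((H : ℝ) + 1)))) =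
        ((H : ℝ) / ((H : ℝ) + 1)) ^ 2 / 81 := by
      field_simp
      ring
    rw [h5]
    nlinarith

end Pool.Agent.MSW
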