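import Pool.Agent.helper47.MSW.SpecA
import Pool.Agent.helper71.DSW.SpecB

/-! Row msw:GPE (MP_a87880_co): general position -/

set_option autoImplicit false

namespace Pool.Agent.MSW

open Equiv Finset Function MeasureTheory Pool.Agent.helper48.PP
open Pool.Agent.DSW (Pr Has GP wt)
open scoped ENNReal Classical

theorem GPE_range (w : Pt) : box 0 w = Finset.range w.1 ×ˢ Finset.range w.2 := by
  rw [Finset.range_eq_Ico, Finset.range_eq_Ico]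
  rfl

theorem GPE_tr (S : Finset Pt) (w : Pt) (hS : S ⊆ box 0 w) : tr (ind S) 0 w = S := by
  unfold tr ind
  ext c
  rw [Finset.mem_filter, decide_eq_true_eq]
  exact ⟨fun h => h.2, fun h => ⟨hS h, h⟩⟩

/-- the bound for one box -/
theorem GPE_one (hMUM : MUM_stmt) (hGPB : Pool.Agent.DSW.GPB_stmt) (p : ℝ) (h0 : 0 ≤ p) (h1 : p ≤ 1)
    (w : Pt) : Pm p {ω | ¬ GP (tr ω 0 w)} ≤
      ENNReal.ofReal (p ^ 2 * ((w.1 : ℝ) * (w.2 : ℝ) ^ 2 + (w.1 : ℝ) ^ 2 * (w.2 : ℝ))) := by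
  have hD : Dep (box 0 w) {ω | ¬ GP (tr ω 0 w)} := Dep.tr 0 w fun S => ¬ GP S
  rw [(hMUM p (box 0 w) _ h0 h1 hD).2]
  apply ENNReal.ofReal_le_ofReal
  refine le_trans (le_of_eq ?_) (hGPB w.1 w.2 p h0 h1)
  rw [← GPE_range]
  unfold Pr
  refine Finset.sum_congr ?_ fun _ _ => rfl
  ext S
  refine (@Finset.mem_filter _ _ (_) _ _).trans (Iff.trans ?_ (@Finset.mem_filter _ _ (_) _ _).symm)
  refine and_congr_right fun hS => ?_
  rw [Finset.mem_powerset] at hS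
  show (¬ GP (tr (ind S) 0 w)) ↔ ¬ GP S
  rw [GPE_tr S w hS]

theorem GPE_E1 (hGEM : GEM_stmt) (H : ℕ) (hH : 1 ≤ H) :
    ∑' j : ℕ, wt H j * ((j : ℕ) : ℝ≥0∞) = (H : ℝ≥0∞) := by
  have h := (hGEM H 1 hH).1
  simpa using h

theorem GPE_E2 (hGEM : GEM_stmt) (H : ℕ) (hH : 1 ≤ H) :
    ∑' j : ℕ, wt H j * ((j : ℕ) : ℝ≥0∞) ^ 2 = 2 * (H : ℝ≥0∞) ^ 2 + (H : ℝ≥0∞) := by
  have h2 := (hGEM H 2 hH).1
  have h3 : ∀ j : ℕ, wt H j * ((j : ℕ) : ℝ≥0∞) ^ 2 =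
      2 * (wt H j * ((j.choose 2 : ℕ) : ℝ≥0∞)) + wt H j * ((j : ℕ) : ℝ≥0∞) := by
    intro j
    have h4 : j ^ 2 = 2 * j.choose 2 + j := by
      rw [Nat.choose_two_right, Nat.mul_div_cancel' (Nat.even_mul_pred_self j).two_dvd]
      rcases j with _ | j
      · rfl
      · simp only [Nat.add_sub_cancel]
        ring
    have h5 : ((j : ℕ) : ℝ≥0∞) ^ 2 = 2 * ((j.choose 2 : ℕ) : ℝ≥0∞) + (j : ℝ≥0∞) := by
      exact_mod_cast h4
    rw [h5]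
    ring
  rw [tsum_congr h3, ENNReal.tsum_add, ENNReal.tsum_mul_left, h2, GPE_E1 hGEM H hH]

theorem GPE (hMUM : MUM_stmt) (hGPB : Pool.Agent.DSW.GPB_stmt) (hGEM : GEM_stmt) (hGEW : GEW_stmt) :
    GPE_stmt := by
  intro H θ hH hθ0 hθ1
  have hHR : (1 : ℝ) ≤ H := by exact_mod_cast hH
  have hH0 : (0 : ℝ) < H := by linarith
  have hp0 : 0 ≤ den θ H := by
    unfold den
    positivity
  have hpH : den θ H ≤ 1 / (H : ℝ) ^ 2 := by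
    unfold den
    exact div_le_div_of_nonneg_right hθ1 (by positivity)
  have hp1 : den θ H ≤ 1 := by
    refine hpH.trans ?_
    rw [div_le_one (by positivity)]
    exact one_le_pow₀ hHR
  have hp2 : den θ H ^ 2 ≤ 1 / (H : ℝ) ^ 4 := by
    have := pow_le_pow_left₀ hp0 hpH 2
    refine this.trans (le_of_eq ?_)
    rw [div_pow, one_pow, ← pow_mul]
  constructor
  · have h1 : ∀ w : Pt, wt H w.1 * wt H w.2 * Pm (den θ H) {ω | ¬ GP (tr ω 0 w)} ≤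
        ENNReal.ofReal (den θ H ^ 2) *
          ((wt H w.1 * (w.1 : ℝ≥0∞)) * (wt H w.2 * (w.2 : ℝ≥0∞) ^ 2) +
            (wt H w.1 * (w.1 : ℝ≥0∞) ^ 2) * (wt H w.2 * (w.2 : ℝ≥0∞))) := by
      intro w
      have h2 := GPE_one hMUM hGPB _ hp0 hp1 w
      refine (mul_le_mul_right h2 _).trans (le_of_eq ?_)
      rw [ENNReal.ofReal_mul (by positivity), ENNReal.ofReal_add (by positivity) (by positivity),
        ENNReal.ofReal_mul (by positivity), ENNReal.ofReal_mul (by positivity),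
        ENNReal.ofReal_pow (p := (w.2 : ℝ)) (by positivity), ENNReal.ofReal_pow (p := (w.1 : ℝ)) (by positivity),
        ENNReal.ofReal_natCast, ENNReal.ofReal_natCast]
      ring
    refine (ENNReal.tsum_le_tsum h1).trans ?_
    rw [ENNReal.tsum_mul_left, ENNReal.tsum_add]
    have h3 := ENNReal.tsum_prod (f := fun a b : ℕ => (wt H a * (a : ℝ≥0∞)) * (wt H b * (b : ℝ≥0∞) ^ 2))
    have h4 := ENNReal.tsum_prod (f := fun a b : ℕ => (wt H a * (a : ℝ≥0∞) ^ 2) * (wt H b * (b : ℝ≥0∞)))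
    have h5 : ∑' w : Pt, (wt H w.1 * (w.1 : ℝ≥0∞)) * (wt H w.2 * (w.2 : ℝ≥0∞) ^ 2) =
        (H : ℝ≥0∞) * (2 * (H : ℝ≥0∞) ^ 2 + (H : ℝ≥0∞)) := by
      refine h3.trans ?_
      have : ∀ a : ℕ, ∑' b : ℕ, (wt H a * (a : ℝ≥0∞)) * (wt H b * (b : ℝ≥0∞) ^ 2) =
          (wt H a * (a : ℝ≥0∞)) * (2 * (H : ℝ≥0∞) ^ 2 + (H : ℝ≥0∞)) := by
        intro a
        rw [ENNReal.tsum_mul_left, GPE_E2 hGEM H hH]
      rw [tsum_congr this, ENNReal.tsum_mul_right, GPE_E1 hGEM H hH]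
    have h6 : ∑' w : Pt, (wt H w.1 * (w.1 : ℝ≥0∞) ^ 2) * (wt H w.2 * (w.2 : ℝ≥0∞)) =
        (2 * (H : ℝ≥0∞) ^ 2 + (H : ℝ≥0∞)) * (H : ℝ≥0∞) := by
      refine h4.trans ?_
      have : ∀ a : ℕ, ∑' b : ℕ, (wt H a * (a : ℝ≥0∞) ^ 2) * (wt H b * (b : ℝ≥0∞)) =
          (wt H a * (a : ℝ≥0∞) ^ 2) * (H : ℝ≥0∞) := by
        intro a
        rw [ENNReal.tsum_mul_left, GPE_E1 hGEM H hH]
      rw [tsum_congr this, ENNReal.tsum_mul_right, GPE_E2 hGEM H hH]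
    rw [h5, h6]
    have h7 : (H : ℝ≥0∞) * (2 * (H : ℝ≥0∞) ^ 2 + (H : ℝ≥0∞)) +
        (2 * (H : ℝ≥0∞) ^ 2 + (H : ℝ≥0∞)) * (H : ℝ≥0∞) =
        ENNReal.ofReal (2 * ((H : ℝ) * (2 * (H : ℝ) ^ 2 + H))) := by
      rw [ENNReal.ofReal_mul (by norm_num), ENNReal.ofReal_mul (by positivity),
        ENNReal.ofReal_add (by positivity) (by positivity), ENNReal.ofReal_mul (by norm_num),
        ENNReal.ofReal_pow (by positivity), ENNReal.ofReal_natCast, ENNReal.ofReal_ofNat]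
      ring
    rw [h7, ← ENNReal.ofReal_mul (by positivity)]
    apply ENNReal.ofReal_le_ofReal
    have h8 : 2 * ((H : ℝ) * (2 * (H : ℝ) ^ 2 + H)) ≤ 6 * (H : ℝ) ^ 3 := by
      nlinarith [mul_nonneg hH0.le hH0.le]
    calc den θ H ^ 2 * (2 * ((H : ℝ) * (2 * (H : ℝ) ^ 2 + H))) ≤ 1 / (H : ℝ) ^ 4 * (6 * (H : ℝ) ^ 3) :=
          mul_le_mul hp2 h8 (by positivity) (by positivity)
      _ = 6 / H := by
          field_simp
  · intro s hs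
    refine (GPE_one hMUM hGPB _ hp0 hp1 s).trans ?_
    apply ENNReal.ofReal_le_ofReal
    have ha : (s.1 : ℝ) ≤ 2 * H := by exact_mod_cast hs.1.2.le
    have hb : (s.2 : ℝ) ≤ 2 * H := by exact_mod_cast hs.2.2.le
    have ha0 : (0 : ℝ) ≤ s.1 := by positivity
    have hb0 : (0 : ℝ) ≤ s.2 := by positivity
    have h1 : (s.1 : ℝ) * (s.2 : ℝ) ^ 2 ≤ (2 * H) * (2 * H) ^ 2 :=
      mul_le_mul ha (pow_le_pow_left₀ hb0 hb 2) (by positivity) (by positivity)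
    have h2 : (s.1 : ℝ) ^ 2 * (s.2 : ℝ) ≤ (2 * H) ^ 2 * (2 * H) :=
      mul_le_mul (pow_le_pow_left₀ ha0 ha 2) hb (by positivity) (by positivity)
    have h3 : (s.1 : ℝ) * (s.2 : ℝ) ^ 2 + (s.1 : ℝ) ^ 2 * (s.2 : ℝ) ≤ 16 * (H : ℝ) ^ 3 := by
      have h4 : (2 * (H : ℝ)) * (2 * H) ^ 2 + (2 * H) ^ 2 * (2 * H) = 16 * (H : ℝ) ^ 3 := by ring
      linarith
    calc den θ H ^ 2 * ((s.1 : ℝ) * (s.2 : ℝ) ^ 2 + (s.1 : ℝ) ^ 2 * (s.2 : ℝ)) ≤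
          1 / (H : ℝ) ^ 4 * (16 * (H : ℝ) ^ 3) := mul_le_mul hp2 h3 (by positivity) (by positivity)
      _ = 16 / H := by
          field_simp

end Pool.Agent.MSW
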