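import Pool.Agent.helper47.MSW.SpecD

/-! Row msw:MUL (MP_a87880_co): multiplicities -/

set_option autoImplicit false

namespace Pool.Agent.MSW

open Equiv Finset Function MeasureTheory Pool.Agent.helper48.PP
open Pool.Agent.DSW (Pr Has GP wt)
open scoped ENNReal Classical

theorem MUL_exp (x : ℝ) (h0 : 0 ≤ x) (h1 : x ≤ 1) : Real.exp (x / 2) ≤ 1 + x := by
  have h2 : 1 - x / 2 ≤ Real.exp (-(x / 2)) := by
    have := Real.add_one_le_exp (-(x / 2))
    linarith
  have h3 : Real.exp (x / 2) * Real.exp (-(x / 2)) = 1 := by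
    rw [← Real.exp_add]
    simp
  have h4 : 0 < Real.exp (x / 2) := Real.exp_pos _
  have h5 : Real.exp (x / 2) * (1 - x / 2) ≤ 1 := by
    have h6 := mul_le_mul_of_nonneg_left h2 h4.le
    rw [h3] at h6
    exact h6
  nlinarith

theorem MUL : MUL_stmt := by
  intro T j μ hi lo hj hpos hlo hlo1 hsum
  have hμj := (hpos j hj).1
  have hA : 0 < μ j * lo / 4 := by positivity
  refine ⟨⌈(Real.log 4 + ∑ i ∈ (Finset.range T).erase j, hi i) / (μ j * lo / 4)⌉₊, ?_⟩
  intro N hN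
  have hN' : Real.log 4 + ∑ i ∈ (Finset.range T).erase j, hi i ≤ N * (μ j * lo / 4) := by
    have h1 := (Nat.le_ceil _).trans (Nat.cast_le (α := ℝ).2 hN)
    rwa [div_le_iff₀ hA] at h1
  have hmem : ∀ i ∈ (Finset.range T).erase j, i < T := fun i hi' => Finset.mem_range.1 (Finset.mem_of_mem_erase hi')
  have h1 : ∏ i ∈ (Finset.range T).erase j, (1 + hi i) ^ ⌈μ i * (N : ℝ)⌉₊ ≤
      ∏ i ∈ (Finset.range T).erase j, Real.exp (hi i * (μ i * N + 1)) := by
    apply Finset.prod_le_prod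
    · intro i hi'
      have := (hpos i (hmem i hi')).2
      positivity
    · intro i hi'
      obtain ⟨a1, a2⟩ := hpos i (hmem i hi')
      have a3 : (⌈μ i * (N : ℝ)⌉₊ : ℝ) ≤ μ i * N + 1 := (Nat.ceil_lt_add_one (by positivity)).le
      calc (1 + hi i) ^ ⌈μ i * (N : ℝ)⌉₊ ≤ Real.exp (hi i) ^ ⌈μ i * (N : ℝ)⌉₊ := by
            apply pow_le_pow_left₀ (by linarith)
            have := Real.add_one_le_exp (hi i)
            linarith
        _ = Real.exp (hi i * ⌈μ i * (N : ℝ)⌉₊) := by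
            rw [← Real.exp_nat_mul, mul_comm]
        _ ≤ _ := by
            apply Real.exp_le_exp.2
            exact mul_le_mul_of_nonneg_left a3 a2
  have h2 : Real.exp (lo * (μ j * N) / 2) ≤ (1 + lo) ^ ⌈μ j * (N : ℝ)⌉₊ := by
    have a3 : μ j * (N : ℝ) ≤ (⌈μ j * (N : ℝ)⌉₊ : ℝ) := Nat.le_ceil _
    calc Real.exp (lo * (μ j * N) / 2) ≤ Real.exp ((⌈μ j * (N : ℝ)⌉₊ : ℝ) * (lo / 2)) := by
          apply Real.exp_le_exp.2
          have := mul_le_mul_of_nonneg_left a3 hlo.le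
          linarith
      _ = Real.exp (lo / 2) ^ ⌈μ j * (N : ℝ)⌉₊ := by rw [Real.exp_nat_mul]
      _ ≤ _ := pow_le_pow_left₀ (Real.exp_pos _).le (MUL_exp lo hlo.le hlo1) _
  refine le_trans ?_ h2
  rw [← Real.exp_sum] at h1
  have h3 : ∑ i ∈ (Finset.range T).erase j, hi i * (μ i * N + 1) =
      N * ∑ i ∈ (Finset.range T).erase j, μ i * hi i + ∑ i ∈ (Finset.range T).erase j, hi i := by
    rw [Finset.mul_sum, ← Finset.sum_add_distrib]
    exact Finset.sum_congr rfl fun i _ => by ring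
  rw [h3] at h1
  have h4 : (4 : ℝ) = Real.exp (Real.log 4) := (Real.exp_log (by norm_num)).symm
  calc 4 * ∏ i ∈ (Finset.range T).erase j, (1 + hi i) ^ ⌈μ i * (N : ℝ)⌉₊
      ≤ 4 * Real.exp (N * ∑ i ∈ (Finset.range T).erase j, μ i * hi i + ∑ i ∈ (Finset.range T).erase j, hi i) :=
        mul_le_mul_of_nonneg_left h1 (by norm_num)
    _ = Real.exp (Real.log 4 + (N * ∑ i ∈ (Finset.range T).erase j, μ i * hi i +
          ∑ i ∈ (Finset.range T).erase j, hi i)) := by rw [Real.exp_add (Real.log 4), ← h4]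
    _ ≤ _ := by
        apply Real.exp_le_exp.2
        have h5 : (N : ℝ) * ∑ i ∈ (Finset.range T).erase j, μ i * hi i ≤ N * (1 / 4 * (μ j * lo)) :=
          mul_le_mul_of_nonneg_left hsum.le (Nat.cast_nonneg N)
        linarith

end Pool.Agent.MSW
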