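import Pool.Agent.helper47.MSW.SpecD

/-! Row msw:PAR (MP_a87880_co): the parameters -/

set_option autoImplicit false

namespace Pool.Agent.MSW

open Equiv Finset Function MeasureTheory Pool.Agent.helper48.PP
open Pool.Agent.DSW (Pr Has GP wt)
open scoped ENNReal Classical

/-- finitely many positive numbers have a positive lower bound -/
theorem PAR_low (T : ℕ) (g : ℕ → ℝ) (h : ∀ i < T, 0 < g i) : ∃ δ : ℝ, 0 < δ ∧ ∀ i < T, δ ≤ g i := by
  induction T with
  | zero => exact ⟨1, one_pos, fun i hi => absurd hi (Nat.not_lt_zero i)⟩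
  | succ T ih =>
    obtain ⟨δ, hδ, hh⟩ := ih fun i hi => h i (Nat.lt_succ_of_lt hi)
    refine ⟨min δ (g T), lt_min hδ (h T (Nat.lt_succ_self T)), ?_⟩
    intro i hi
    rcases Nat.lt_succ_iff_lt_or_eq.1 hi with h1 | h1
    · exact (min_le_left _ _).trans (hh i h1)
    · rw [h1]
      exact min_le_right _ _

/-- put `a` in front of the sequence -/
def PAR_cons (a : ℝ) (f : ℕ → ℝ) : ℕ → ℝ
  | 0 => a
  | i + 1 => f i

theorem PAR_cons_zero (a : ℝ) (f : ℕ → ℝ) : PAR_cons a f 0 = a := rfl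

theorem PAR_cons_succ (a : ℝ) (f : ℕ → ℝ) (i : ℕ) : PAR_cons a f (i + 1) = f i := rfl

theorem PAR : PAR_stmt := by
  intro T
  induction T with
  | zero =>
    intro s e c C κ θ₀ _ _ _ _ _ _
    exact ⟨fun _ => 1, fun _ => 1, fun i hi => absurd hi (Nat.not_lt_zero i), fun i hi => absurd hi (Nat.not_lt_zero i),
      fun i hi => absurd hi (Nat.not_lt_zero _), fun i hi => absurd hi (Nat.not_lt_zero i)⟩
  | succ T ih =>
    intro s e c C κ θ₀ hes hcC hκ hκ1 hθ₀ hθ₀1
    obtain ⟨θ', μ', h1, h2, h3, h4⟩ := ih (fun i => s (i + 1)) (fun i => e (i + 1)) (fun i => c (i + 1))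
      (fun i => C (i + 1)) κ θ₀ (fun i j hij => hes (i + 1) (j + 1) (Nat.succ_lt_succ hij)) (fun i => hcC (i + 1))
      hκ hκ1 hθ₀ hθ₀1
    obtain ⟨δ, hδ, hδ2⟩ := PAR_low T (fun j => 1 / 4 * (μ' j * (c (j + 1) * θ' j ^ e (j + 1))) -
      ∑ i ∈ (Finset.range T).erase j, μ' i * (C (i + 1) * θ' j ^ (s (i + 1) + 1))) (fun j hj => sub_pos.2 (h4 j hj))
    obtain ⟨δ', hδ', hδ2'⟩ := PAR_low T θ' (fun j hj => (h1 j hj).1)
    obtain ⟨B, hB⟩ : ∃ B, B = ∑ i ∈ Finset.range T, μ' i * C (i + 1) := ⟨_, rfl⟩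
    have hB0 : 0 ≤ B := by
      rw [hB]
      exact Finset.sum_nonneg fun i hi => mul_nonneg (h2 i (Finset.mem_range.1 hi)).le (hcC (i + 1)).2.le
    have hC0 := (hcC 0).2
    have hc0 := (hcC 0).1
    obtain ⟨m0, hm0⟩ : ∃ m0, m0 = δ / (2 * C 0) := ⟨_, rfl⟩
    have hm0p : 0 < m0 := by
      rw [hm0]
      positivity
    have hm0C : m0 * C 0 < δ := by
      have : m0 * C 0 = δ / 2 := by
        rw [hm0]
        field_simp
      rw [this]
      linarith
    obtain ⟨t0, ht0⟩ : ∃ t0, t0 = min θ₀ (min (κ * δ') (m0 * c 0 / (8 * (B + 1)))) := ⟨_, rfl⟩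
    have hB1 : 0 < B + 1 := by linarith
    have ht0p : 0 < t0 := by
      rw [ht0]
      refine lt_min hθ₀ (lt_min (mul_pos hκ hδ') ?_)
      positivity
    have ht1 : t0 ≤ θ₀ := by
      rw [ht0]
      exact min_le_left _ _
    have ht2 : t0 ≤ κ * δ' := by
      rw [ht0]
      exact (min_le_right _ _).trans (min_le_left _ _)
    have ht3 : t0 * B < 1 / 4 * (m0 * c 0) := by
      have h5 : t0 ≤ m0 * c 0 / (8 * (B + 1)) := by
        rw [ht0]
        exact (min_le_right _ _).trans (min_le_right _ _)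
      have hmc : 0 < m0 * c 0 := mul_pos hm0p hc0
      have h6 : t0 * (8 * (B + 1)) ≤ m0 * c 0 := by
        rwa [le_div_iff₀ (by positivity)] at h5
      nlinarith
    have ht01 : t0 ≤ 1 := ht1.trans hθ₀1
    refine ⟨PAR_cons t0 θ', PAR_cons m0 μ', ?_, ?_, ?_, ?_⟩
    · intro i hi
      cases i with
      | zero => exact ⟨ht0p, ht1⟩
      | succ i => exact h1 i (Nat.lt_of_succ_lt_succ hi)
    · intro i hi
      cases i with
      | zero => exact hm0p
      | succ i => exact h2 i (Nat.lt_of_succ_lt_succ hi)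
    · intro i hi
      cases i with
      | zero =>
        have h0 : 0 < T := Nat.lt_of_succ_lt_succ hi
        exact ht2.trans (mul_le_mul_of_nonneg_left (hδ2' 0 h0) hκ.le)
      | succ i => exact h3 i (Nat.lt_of_succ_lt_succ hi)
    · intro j hj
      cases j with
      | zero =>
        have e1 : ∑ i ∈ (Finset.range (T + 1)).erase 0, PAR_cons m0 μ' i * (C i * t0 ^ (s i + 1)) =
            ∑ i ∈ Finset.range T, μ' i * (C (i + 1) * t0 ^ (s (i + 1) + 1)) := by
          rw [Finset.sum_erase_eq_sub (Finset.mem_range.2 (Nat.succ_pos T)), Finset.sum_range_succ']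
          simp only [PAR_cons_zero, PAR_cons_succ]
          ring
        show ∑ i ∈ (Finset.range (T + 1)).erase 0, PAR_cons m0 μ' i * (C i * t0 ^ (s i + 1)) <
          1 / 4 * (m0 * (c 0 * t0 ^ e 0))
        rw [e1]
        have h5 : ∑ i ∈ Finset.range T, μ' i * (C (i + 1) * t0 ^ (s (i + 1) + 1)) ≤ B * t0 ^ (e 0 + 1) := by
          rw [hB, Finset.sum_mul]
          refine Finset.sum_le_sum fun i hi => ?_
          have h6 : t0 ^ (s (i + 1) + 1) ≤ t0 ^ (e 0 + 1) :=
            pow_le_pow_of_le_one ht0p.le ht01 (Nat.succ_le_succ (hes (i + 1) 0 (Nat.succ_pos i)))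
          rw [← mul_assoc]
          exact mul_le_mul_of_nonneg_left h6 (mul_nonneg (h2 i (Finset.mem_range.1 hi)).le (hcC (i + 1)).2.le)
        refine h5.trans_lt ?_
        have h7 : 0 < t0 ^ e 0 := pow_pos ht0p _
        calc B * t0 ^ (e 0 + 1) = (t0 * B) * t0 ^ e 0 := by ring
          _ < (1 / 4 * (m0 * c 0)) * t0 ^ e 0 := mul_lt_mul_of_pos_right ht3 h7
          _ = _ := by ring
      | succ j =>
        have hj' : j < T := Nat.lt_of_succ_lt_succ hj
        have e1 : ∑ i ∈ (Finset.range (T + 1)).erase (j + 1), PAR_cons m0 μ' i * (C i * θ' j ^ (s i + 1)) =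
            ∑ i ∈ (Finset.range T).erase j, μ' i * (C (i + 1) * θ' j ^ (s (i + 1) + 1)) + m0 * (C 0 * θ' j ^ (s 0 + 1)) := by
          rw [Finset.sum_erase_eq_sub (Finset.mem_range.2 hj), Finset.sum_range_succ',
            Finset.sum_erase_eq_sub (Finset.mem_range.2 hj')]
          simp only [PAR_cons_zero, PAR_cons_succ]
          ring
        show ∑ i ∈ (Finset.range (T + 1)).erase (j + 1), PAR_cons m0 μ' i * (C i * θ' j ^ (s i + 1)) <
          1 / 4 * (μ' j * (c (j + 1) * θ' j ^ e (j + 1)))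
        rw [e1]
        have h5 := hδ2 j hj'
        have h6 : θ' j ^ (s 0 + 1) ≤ 1 := pow_le_one₀ (h1 j hj').1.le ((h1 j hj').2.trans hθ₀1)
        have h7 : m0 * (C 0 * θ' j ^ (s 0 + 1)) ≤ m0 * C 0 := by
          rw [← mul_assoc]
          exact mul_le_of_le_one_right (mul_pos hm0p hC0).le h6
        linarith

end Pool.Agent.MSW
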